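import Mathlib
import Pool.Agent.Q264.CMMain

/-!
# The parity-perturbed Conway-Mallows sequence: `b(n) / n` does not converge to `1 / (2 φ)`

There is a sequence of special points `... < A < B < C < D < E < ...` with `D = C + A + 12`, `E = D + B - 14` and so on
(the ratio of consecutive ones tends to the real root `1.4656` of `x ^ 3 = x ^ 2 + 1`), at which `b(D) = A + 7`,
`b(E) = B - 5` and so on, so that `b(n) / n` is about `1.4656 ^ (-3) = 0.3177` there. Near the special points `b` has one of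
two fixed profiles. This is proved by induction: the recursion refers to the two earlier special points; coarse linear
bounds for `b` to the left of a special point leave finitely many possible values at a distance of `36` or `60`, and all
of them lead to the same profile.
-/

set_option autoImplicit false

namespace Pool.Agent.Results.MP_c3a542_nt.NotGolden

open Filter Topology

/-- the conditions which define `b(1), b(2), ...` (the values at `n ≤ 0` do not matter): `b(1) = b(2) = 1`, and for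
`n ≥ 3` both indices `b(n-1)` and `n - b(n-1)` lie in `[1, n-1]` and `b(n) = b(b(n-1)) + b(n-b(n-1)) + (-1)^n` -/
def IsB (b : ℤ → ℤ) : Prop :=
  b 1 = 1 ∧ b 2 = 1 ∧ ∀ n : ℤ, 3 ≤ n →
    (1 ≤ b (n - 1) ∧ b (n - 1) ≤ n - 1) ∧ (1 ≤ n - b (n - 1) ∧ n - b (n - 1) ≤ n - 1) ∧
    b n = b (b (n - 1)) + b (n - b (n - 1)) + (-1) ^ n.toNat

theorem isB_iff (b : ℤ → ℤ) : IsB b ↔ Q264.CM.IsB b := by
  unfold IsB Q264.CM.IsB
  constructor
  · rintro ⟨h1, h2, h3⟩
    refine ⟨h1, h2, fun n hn => ?_⟩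
    obtain ⟨a, c, d⟩ := h3 n hn
    exact ⟨a, d⟩
  · rintro ⟨h1, h2, h3⟩
    refine ⟨h1, h2, fun n hn => ?_⟩
    obtain ⟨a, d⟩ := h3 n hn
    exact ⟨a, ⟨by omega, by omega⟩, d⟩

/-- **Q1**: `b` is defined for every `n ≥ 1`, but `b(n) / n ≥ 317 / 1000` for infinitely many `n`, so that `b(n) / n` does
not converge to `(√5 - 1) / 4 = 0.3090...`. -/
theorem result : (∃ b : ℤ → ℤ, IsB b) ∧ (∀ b b' : ℤ → ℤ, IsB b → IsB b' → ∀ n : ℤ, 1 ≤ n → b n = b' n) ∧
    ∀ b : ℤ → ℤ, IsB b →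
      (∀ N : ℕ, ∃ n : ℕ, N ≤ n ∧ 1 ≤ n ∧ (317 / 1000 : ℝ) ≤ (b n : ℝ) / n) ∧
      ¬ Tendsto (fun n : ℕ => (b n : ℝ) / n) atTop (𝓝 ((√5 - 1) / 4)) := by
  refine ⟨⟨_, (isB_iff _).2 Q264.CM.isB⟩, fun b b' h h' => ((isB_iff b).1 h).unique ((isB_iff b').1 h'), ?_⟩
  intro b hb
  have huniq := ((isB_iff b).1 hb).unique Q264.CM.isB
  have hfreq : ∀ N : ℕ, ∃ n : ℕ, N ≤ n ∧ 1 ≤ n ∧ (317 / 1000 : ℝ) ≤ (b n : ℝ) / n := by
    intro N
    obtain ⟨n, h1, h2, h3⟩ := Q264.CM.frequently_large N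
    obtain ⟨m, rfl⟩ : ∃ m : ℕ, n = m := ⟨n.toNat, by omega⟩
    refine ⟨m, by omega, by omega, ?_⟩
    rw [← huniq m h2] at h3
    have hm : (0 : ℝ) < m := by exact_mod_cast (by omega : 0 < m)
    rw [le_div_iff₀ hm]
    have h4 : (317 : ℝ) * m ≤ 1000 * b m := by exact_mod_cast h3
    linarith
  refine ⟨hfreq, fun hlim => ?_⟩
  have h5 : √5 < 2.24 := by
    rw [Real.sqrt_lt' (by norm_num)]
    norm_num
  have h6 : ((√5 - 1) / 4 : ℝ) < 317 / 1000 := by linarith
  have h7 := hlim.eventually_lt_const h6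
  obtain ⟨N, hN⟩ := eventually_atTop.1 h7
  obtain ⟨n, h8, h9, h10⟩ := hfreq N
  exact absurd (hN n h8) (not_lt.2 h10)

end Pool.Agent.Results.MP_c3a542_nt.NotGolden
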